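import Pool.Agent.W115.Vis.Lower
import Pool.Agent.W115.Vis.Upper

set_option autoImplicit false

namespace Pool.Agent.Results.MP_af711c_co.GrowthOrder

open Pool.Agent.W115.Vis

/-- The number `N(n)` of isomorphism classes of visibility graphs of simple polygons with `n`
vertices satisfies `(n log₂ n) / 24 ≤ log₂ N(n) ≤ 75 n log₂ n` for `n ≥ 144`; the lower bound holds
even if only polygons without straight angles are counted. -/
theorem result (n : ℕ) (hn : 144 ≤ n) :
    (n : ℝ) * Real.logb 2 n / 24 ≤ Real.logb 2 ((strictClasses n).ncard : ℝ) ∧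
      Real.logb 2 ((strictClasses n).ncard : ℝ) ≤ Real.logb 2 ((classes n).ncard : ℝ) ∧
      Real.logb 2 ((classes n).ncard : ℝ) ≤ 75 * ((n : ℝ) * Real.logb 2 n) := by
  refine ⟨lower n hn, ?_, upper n (by omega)⟩
  have h1 : strictClasses n ⊆ classes n := fun c ⟨v, h1, _, h3⟩ => ⟨v, h1, h3⟩
  have hfin : Finite (Quotient (isoSetoid n)) := Quotient.finite _
  have h2 := Set.ncard_le_ncard h1 (Set.toFinite _)
  have h3 := lower n hn
  have hnR : (144 : ℝ) ≤ n := by exact_mod_cast hn
  have hlog : 0 < Real.logb 2 n := Real.logb_pos (by norm_num) (by linarith)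
  have h4 : 0 < (strictClasses n).ncard := by
    rcases Nat.eq_zero_or_pos (strictClasses n).ncard with h | h
    · rw [h, Nat.cast_zero, Real.logb_zero] at h3
      have : 0 < (n : ℝ) * Real.logb 2 n / 24 := by positivity
      linarith
    · exact h
  exact Real.logb_le_logb_of_le (by norm_num) (by exact_mod_cast h4) (by exact_mod_cast h2)

end Pool.Agent.Results.MP_af711c_co.GrowthOrder
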